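import Mathlib

/-!
# Semisimplicity of the quotient by the radical of a trace form
-/

set_option autoImplicit false

namespace Pool.Agent.Helper30.ZP

/-- Let `A` be an Artinian ring and `π` a surjection onto a ring `C`, such that every `x`, all of
whose multiples `x * y` are nilpotent, is in the kernel. Then `C` is semisimple. -/
theorem isSemisimpleRing_of_nilpotent {A C : Type*} [Ring A] [IsArtinianRing A] [Ring C]
    (π : A →+* C) (hπ : Function.Surjective π)
    (h : ∀ x, (∀ y, IsNilpotent (x * y)) → π x = 0) : IsSemisimpleRing C := by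
  have h1 : ∀ x ∈ Ring.jacobson A, π x = 0 := by
    intro x hx
    refine h x fun y => ?_
    obtain ⟨n, hn⟩ := IsSemiprimaryRing.isNilpotent (R := A)
    have hxy : x * y ∈ Ring.jacobson A := (Ring.jacobson A).mul_mem_right y hx
    refine ⟨n, ?_⟩
    have h2 : (x * y) ^ n ∈ (Ring.jacobson A) ^ n := Ideal.pow_mem_pow hxy n
    rw [hn] at h2
    exact h2
  exact RingHom.isSemisimpleRing_of_surjective (Ideal.Quotient.lift (Ring.jacobson A) π h1)
    (Ideal.Quotient.lift_surjective_of_surjective _ h1 hπ)

/-- **Semisimplicity modulo numerical equivalence** (Jannsen), abstract form: if `tr` vanishes on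
the nilpotent elements and `π` is a surjection whose kernel contains the radical of the form
`tr (x * y)`, then the image of `π` is semisimple. -/
theorem isSemisimpleRing_of_trace {Ω A C M : Type*} [Field Ω] [Ring A] [Algebra Ω A]
    [Module.Finite Ω A] [Ring C] [Zero M] (π : A →+* C) (hπ : Function.Surjective π)
    (tr : A → M) (htr : ∀ x, IsNilpotent x → tr x = 0)
    (hker : ∀ x, (∀ y, tr (x * y) = 0) → π x = 0) : IsSemisimpleRing C := by
  haveI : IsArtinianRing A := IsArtinianRing.of_finite Ω A
  exact isSemisimpleRing_of_nilpotent π hπ fun x hx => hker x fun y => htr _ (hx y)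

end Pool.Agent.Helper30.ZP
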