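import Mathlib

/-!
# A Cauchy-Schwarz inequality for the corners of a semisimple algebra
-/

set_option autoImplicit false

namespace Pool.Agent.Helper30.ZP

open Module Finset

/-! ### counting -/

lemma block_sum {X Q : Type*} [Fintype Q] [DecidableEq Q] (cls : X → Q) (d : Q → ℕ)
    (f : X → X → ℕ) (hf : ∀ x y, f x y = if cls x = cls y then d (cls x) else 0)
    {ι κ : Type*} [Fintype ι] [Fintype κ] (a : ι → X) (b : κ → X) :
    ∑ i, ∑ j, f (a i) (b j) = ∑ c : Q, d c * (#{i | cls (a i) = c} * #{j | cls (b j) = c}) := by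
  classical
  have h1 : ∀ i j, f (a i) (b j) =
      ∑ c : Q, (if cls (a i) = c then 1 else 0) * (d c * (if cls (b j) = c then 1 else 0)) := by
    intro i j
    rw [hf, Finset.sum_eq_single (cls (a i))]
    · simp [eq_comm]
    · intro c _ hc
      simp [hc.symm]
    · simp
  simp_rw [h1]
  rw [Finset.sum_congr rfl (fun i _ => Finset.sum_comm), Finset.sum_comm]
  refine Finset.sum_congr rfl fun c _ => ?_
  rw [Finset.sum_congr rfl (fun i _ => (Finset.mul_sum _ _ _).symm), ← Finset.sum_mul,
    ← Finset.mul_sum]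
  rw [Finset.card_filter, Finset.card_filter]
  ring

lemma block_sq_le {X Q : Type*} [Fintype Q] [DecidableEq Q] (cls : X → Q) (d : Q → ℕ)
    (f : X → X → ℕ) (hf : ∀ x y, f x y = if cls x = cls y then d (cls x) else 0)
    {ι κ : Type*} [Fintype ι] [Fintype κ] (u : ι → X) (v : κ → X) :
    (∑ i, ∑ j, f (u i) (v j)) ^ 2 ≤
      (∑ i, ∑ i', f (u i) (u i')) * (∑ j, ∑ j', f (v j) (v j')) := by
  classical
  rw [block_sum cls d f hf u v, block_sum cls d f hf u u, block_sum cls d f hf v v]
  refine Finset.sum_sq_le_sum_mul_sum_of_sq_eq_mul _ (fun _ _ => Nat.zero_le _)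
    (fun _ _ => Nat.zero_le _) fun c _ => ?_
  ring

/-! ### homomorphisms -/

variable {K C : Type*} [Field K] [Ring C] [Algebra K C]

lemma finite_hom (M N : Type*) [AddCommGroup M] [AddCommGroup N] [Module C M] [Module C N]
    [Module K M] [Module K N] [IsScalarTower K C M] [IsScalarTower K C N] [Module.Finite K M]
    [Module.Finite K N] : Module.Finite K (M →ₗ[C] N) := by
  refine Module.Finite.of_injective (LinearMap.restrictScalarsₗ K C M N K) ?_
  intro f g h
  ext x
  exact LinearMap.congr_fun h x

section submodules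

variable (K) {M : Type*} [AddCommGroup M] [Module C M] [Module K M] [IsScalarTower K C M]

/-- The dimension of the space of homomorphisms. -/
noncomputable def hd (P Q : Submodule C M) : ℕ := finrank K (P →ₗ[C] Q)

lemma hd_congr {P P' Q Q' : Submodule C M} (e : P ≃ₗ[C] P') (e' : Q ≃ₗ[C] Q') :
    hd K P Q = hd K P' Q' := by
  unfold hd
  refine LinearEquiv.finrank_eq ?_
  exact
    { toFun := fun f => e'.toLinearMap ∘ₗ f ∘ₗ e.symm.toLinearMap
      invFun := fun f => e'.symm.toLinearMap ∘ₗ f ∘ₗ e.toLinearMap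
      map_add' := fun f g => by ext x; simp
      map_smul' := fun c f => by
        ext x
        have : e' ((c • f) (e.symm x)) = c • e' (f (e.symm x)) := by
          rw [LinearMap.smul_apply]
          exact LinearMap.map_smul_of_tower e'.toLinearMap c _
        simpa using congrArg Subtype.val this
      left_inv := fun f => by ext x; simp
      right_inv := fun f => by ext x; simp }

lemma hd_simple [Module.Finite K M] {P Q : Submodule C M} [IsSimpleModule C P]
    [IsSimpleModule C Q] (h : ¬ Nonempty (P ≃ₗ[C] Q)) : hd K P Q = 0 := by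
  have : Subsingleton (P →ₗ[C] Q) := by
    refine subsingleton_of_forall_eq 0 fun f => ?_
    rcases f.bijective_or_eq_zero with hf | hf
    · exact absurd ⟨LinearEquiv.ofBijective f hf⟩ h
    · exact hf
  unfold hd
  exact finrank_zero_of_subsingleton

lemma hd_pi [Module.Finite K M] {ι κ : Type} [Fintype ι] [Fintype κ] [DecidableEq ι]
    {P Q : Submodule C M} {V : ι → Submodule C M}
    {W : κ → Submodule C M} (e : P ≃ₗ[C] (∀ i, V i)) (e' : Q ≃ₗ[C] (∀ j, W j)) :
    hd K P Q = ∑ i, ∑ j, hd K (V i) (W j) := by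
  have hfin : ∀ (A B : Submodule C M), Module.Finite K (A →ₗ[C] B) := by
    intro A B
    haveI : Module.Finite K A := Module.Finite.of_injective (A.subtype.restrictScalars K)
      A.subtype_injective
    haveI : Module.Finite K B := Module.Finite.of_injective (B.subtype.restrictScalars K)
      B.subtype_injective
    exact finite_hom A B
  have e1 : (P →ₗ[C] Q) ≃ₗ[K] ((∀ i, V i) →ₗ[C] (∀ j, W j)) :=
    { toFun := fun f => e'.toLinearMap ∘ₗ f ∘ₗ e.symm.toLinearMap
      invFun := fun f => e'.symm.toLinearMap ∘ₗ f ∘ₗ e.toLinearMap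
      map_add' := fun f g => by
        refine LinearMap.ext fun x => ?_
        simp
      map_smul' := fun c f => by
        refine LinearMap.ext fun x => ?_
        exact LinearMap.map_smul_of_tower e'.toLinearMap c _
      left_inv := fun f => by
        refine LinearMap.ext fun x => ?_
        simp
      right_inv := fun f => by
        refine LinearMap.ext fun x => ?_
        simp }
  have e2 : ((∀ i, V i) →ₗ[C] (∀ j, W j)) ≃ₗ[K] (∀ i j, V i →ₗ[C] W j) :=
    (LinearMap.lsum C (fun i => V i) K).symm.trans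
      (LinearEquiv.piCongrRight fun i => (LinearEquiv.linearMapPi K).symm)
  unfold hd
  rw [(e1.trans e2).finrank_eq, finrank_pi_fintype]
  refine Finset.sum_congr rfl fun i _ => ?_
  rw [finrank_pi_fintype]

lemma exists_family [Module.Finite K M] (P : Submodule C M) [IsSemisimpleModule C P]
    [Module.Finite C P] : ∃ (n : ℕ) (V : Fin n → Submodule C M) (_ : P ≃ₗ[C] (∀ i, V i)),
      ∀ i, IsSimpleModule C (V i) := by
  obtain ⟨n, S, e, hS⟩ := IsSemisimpleModule.exists_linearEquiv_fin_dfinsupp C P
  refine ⟨n, fun i => (S i).map P.subtype, ?_, fun i => ?_⟩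
  · exact e.trans ((DFinsupp.linearEquivFunOnFintype).trans
      (LinearEquiv.piCongrRight fun i => Submodule.equivSubtypeMap P (S i)))
  · haveI := hS i
    exact IsSimpleModule.congr (Submodule.equivSubtypeMap P (S i)).symm

theorem hd_sq_le [Module.Finite K M] (P Q : Submodule C M) [IsSemisimpleModule C P]
    [Module.Finite C P] [IsSemisimpleModule C Q] [Module.Finite C Q] :
    hd K P Q ^ 2 ≤ hd K P P * hd K Q Q := by
  classical
  obtain ⟨n, V, e, hV⟩ := exists_family K P
  obtain ⟨m, W, e', hW⟩ := exists_family K Q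
  rw [hd_pi K e e', hd_pi K e e, hd_pi K e' e']
  set U : Fin n ⊕ Fin m → Submodule C M := Sum.elim V W with hU
  have hUs : ∀ x, IsSimpleModule C (U x) := by
    rintro (i | j)
    · exact hV i
    · exact hW j
  let r : Setoid (Fin n ⊕ Fin m) :=
    { r := fun x y => Nonempty (U x ≃ₗ[C] U y)
      iseqv := ⟨fun x => ⟨LinearEquiv.refl C _⟩, fun ⟨h⟩ => ⟨h.symm⟩,
        fun ⟨h⟩ ⟨h'⟩ => ⟨h.trans h'⟩⟩ }
  haveI : Fintype (Quotient r) := Fintype.ofFinite _
  have hf : ∀ x y, hd K (U x) (U y) = if Quotient.mk r x = Quotient.mk r y then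
      Quotient.lift (s := r) (fun z => hd K (U z) (U z))
        (fun a b (h : Nonempty (U a ≃ₗ[C] U b)) => hd_congr K h.some h.some) (Quotient.mk r x)
      else 0 := by
    intro x y
    by_cases h : Nonempty (U x ≃ₗ[C] U y)
    · rw [if_pos (Quotient.sound h)]
      exact hd_congr K (LinearEquiv.refl C _) h.some.symm
    · rw [if_neg (fun h' => h (Quotient.exact h'))]
      haveI := hUs x
      haveI := hUs y
      exact hd_simple K h
  exact block_sq_le (fun x => Quotient.mk r x) _ _ hf (ι := Fin n) (κ := Fin m) Sum.inl Sum.inr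

end submodules

/-! ### corners -/

variable (K)

/-- the corner `p C q` -/
noncomputable def corner (p q : C) : Submodule K C :=
  LinearMap.range ((LinearMap.mulRight K q).comp (LinearMap.mulLeft K p))

variable {K}

lemma mem_corner {p q z : C} : z ∈ corner K p q ↔ ∃ x, p * x * q = z := by
  simp [corner]

lemma finrank_corner {p q : C} (hp : p * p = p) (hq : q * q = q) :
    finrank K (corner K p q) = hd K (Submodule.span C {p}) (Submodule.span C {q}) := by
  symm
  unfold hd
  have hpm : p ∈ Submodule.span C {p} := Submodule.mem_span_singleton_self p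
  have hQ : ∀ y : Submodule.span C ({q} : Set C), (y : C) * q = y := by
    rintro ⟨y, hy⟩
    obtain ⟨a, rfl⟩ := Submodule.mem_span_singleton.1 hy
    simp only [smul_eq_mul, mul_assoc, hq]
  have hf : ∀ f : Submodule.span C ({p} : Set C) →ₗ[C] Submodule.span C ({q} : Set C),
      ((f ⟨p, hpm⟩ : Submodule.span C ({q} : Set C)) : C) ∈ corner K p q := by
    intro f
    refine mem_corner.2 ⟨((f ⟨p, hpm⟩ : Submodule.span C ({q} : Set C)) : C), ?_⟩
    have h1 : p * ((f ⟨p, hpm⟩ : Submodule.span C ({q} : Set C)) : C) =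
        ((f ⟨p, hpm⟩ : Submodule.span C ({q} : Set C)) : C) := by
      have h2 : p • (⟨p, hpm⟩ : Submodule.span C ({p} : Set C)) = ⟨p, hpm⟩ := by
        ext
        exact hp
      have h3 := congrArg Subtype.val (f.map_smul p ⟨p, hpm⟩)
      rw [h2] at h3
      exact h3.symm
    rw [h1, hQ]
  refine LinearEquiv.finrank_eq (LinearEquiv.ofBijective
    { toFun := fun f => (⟨_, hf f⟩ : corner K p q)
      map_add' := fun f g => by ext; simp
      map_smul' := fun c f => by ext; simp } ⟨?_, ?_⟩)
  · intro f g h
    have h1 : ((f ⟨p, hpm⟩ : Submodule.span C ({q} : Set C)) : C) =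
        ((g ⟨p, hpm⟩ : Submodule.span C ({q} : Set C)) : C) := by
      have := congrArg (fun z : corner K p q => (z : C)) h
      exact this
    refine LinearMap.ext fun x => ?_
    obtain ⟨x, hx⟩ := x
    obtain ⟨a, rfl⟩ := Submodule.mem_span_singleton.1 hx
    have h2 : (⟨a • p, hx⟩ : Submodule.span C ({p} : Set C)) = a • ⟨p, hpm⟩ := rfl
    rw [h2, map_smul, map_smul, Subtype.ext h1]
  · rintro ⟨z, hz⟩
    obtain ⟨x, rfl⟩ := mem_corner.1 hz
    have hm : ∀ y : C, y * (p * x * q) ∈ Submodule.span C ({q} : Set C) := fun y =>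
      Submodule.mem_span_singleton.2 ⟨y * (p * x), by simp [mul_assoc]⟩
    refine ⟨{ toFun := fun y => ⟨(y : C) * (p * x * q), hm _⟩
              map_add' := fun y y' => by ext; simp [add_mul]
              map_smul' := fun c y => by ext; simp [mul_assoc] }, ?_⟩
    ext
    simp [← mul_assoc, hp]

/-- **Cauchy-Schwarz for corners.** -/
theorem corner_sq_le [Module.Finite K C] [IsSemisimpleRing C] {p q : C} (hp : p * p = p)
    (hq : q * q = q) :
    finrank K (corner K p q) ^ 2 ≤ finrank K (corner K p p) * finrank K (corner K q q) := by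
  rw [finrank_corner hp hq, finrank_corner hp hp, finrank_corner hq hq]
  exact hd_sq_le K _ _

end Pool.Agent.Helper30.ZP
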